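import Pool.Agent.PJC.Stmts

/-! PJC, row JOH: John's theorem from the improvement step. -/

set_option autoImplicit false

namespace Pool.Agent.PJC.H80

open Pool.Agent.PJC

theorem joh (hJOI : JoiStmt) : JohStmt := by
  intro n X _ _ _ hn hfin
  have hfr : Module.finrank ℝ (Eu n) = Module.finrank ℝ X := by
    rw [hfin, finrank_euclideanSpace_fin]
  let B : Eu n ≃ₗ[ℝ] X := LinearEquiv.ofFinrankEq (Eu n) X hfr
  let Bc : Eu n →L[ℝ] X := LinearMap.toContinuousLinearMap (B : Eu n →ₗ[ℝ] X)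
  let Bi : X →L[ℝ] Eu n := LinearMap.toContinuousLinearMap (B.symm : X →ₗ[ℝ] Eu n)
  have hBc : ∀ v, Bc v = B v := fun v => rfl
  have hBi : ∀ x, Bi x = B.symm x := fun x => rfl
  let S : Set (Eu n →L[ℝ] Eu n) := {M | ∀ w, ‖Bc (M w)‖ ≤ ‖w‖}
  haveI : ProperSpace (Eu n →L[ℝ] Eu n) := FiniteDimensional.proper ℝ _
  have hclosed : IsClosed S := by
    have h1 : S = ⋂ w : Eu n, {M : Eu n →L[ℝ] Eu n | ‖Bc (M w)‖ ≤ ‖w‖} := by
      ext M
      simp [S]
    rw [h1]
    apply isClosed_iInter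
    intro w
    apply isClosed_le _ continuous_const
    exact (Bc.continuous.comp (ContinuousLinearMap.apply ℝ (Eu n) w).continuous).norm
  have hbdd : Bornology.IsBounded S := by
    rw [isBounded_iff_forall_norm_le]
    refine ⟨‖Bi‖, fun M hM => ?_⟩
    apply M.opNorm_le_bound (norm_nonneg _)
    intro w
    have h2 : M w = Bi (Bc (M w)) := by
      rw [hBi, hBc, LinearEquiv.symm_apply_apply]
    rw [h2]
    refine (Bi.le_opNorm _).trans ?_
    exact mul_le_mul_of_nonneg_left (hM w) (norm_nonneg _)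
  have hcomp : IsCompact S := Metric.isCompact_of_isClosed_isBounded hclosed hbdd
  have hcont : Continuous fun M : Eu n →L[ℝ] Eu n => |LinearMap.det (M : Eu n →ₗ[ℝ] Eu n)| :=
    ContinuousLinearMap.continuous_det.abs
  have h0 : (0 : Eu n →L[ℝ] Eu n) ∈ S := by
    intro w
    simp
  obtain ⟨M, hMS, hMmax⟩ := hcomp.exists_isMaxOn ⟨0, h0⟩ hcont.continuousOn
  -- a small multiple of the identity
  set c : ℝ := (‖Bc‖ + 1)⁻¹ with hc
  have hc0 : 0 < c := by positivity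
  have hcS : (c • ContinuousLinearMap.id ℝ (Eu n)) ∈ S := by
    intro w
    have h1 : (c • ContinuousLinearMap.id ℝ (Eu n)) w = c • w := by simp
    rw [h1, map_smul, norm_smul, Real.norm_eq_abs, abs_of_pos hc0]
    calc c * ‖Bc w‖ ≤ c * ((‖Bc‖ + 1) * ‖w‖) := by
          gcongr
          exact (Bc.le_opNorm w).trans (mul_le_mul_of_nonneg_right (by linarith) (norm_nonneg _))
      _ = ‖w‖ := by
          rw [← mul_assoc, hc, inv_mul_cancel₀ (by positivity), one_mul]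
  have hdetpos : 0 < |LinearMap.det (M : Eu n →ₗ[ℝ] Eu n)| := by
    have h1 := hMmax hcS
    refine lt_of_lt_of_le ?_ h1
    change 0 < |LinearMap.det ((c • ContinuousLinearMap.id ℝ (Eu n) : Eu n →L[ℝ] Eu n) :
      Eu n →ₗ[ℝ] Eu n)|
    have h2 : ((c • ContinuousLinearMap.id ℝ (Eu n) : Eu n →L[ℝ] Eu n) : Eu n →ₗ[ℝ] Eu n) =
        c • LinearMap.id := by
      ext
      simp
    rw [h2, LinearMap.det_smul, LinearMap.det_id, mul_one]
    positivity
  have hdet : LinearMap.det (M : Eu n →ₗ[ℝ] Eu n) ≠ 0 := fun h => by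
    rw [h, abs_zero] at hdetpos
    exact lt_irrefl _ hdetpos
  let e : Eu n ≃ₗ[ℝ] Eu n := LinearMap.equivOfDetNeZero (M : Eu n →ₗ[ℝ] Eu n) hdet
  have he : ∀ w, e w = M w := fun w => rfl
  let T : Eu n ≃ₗ[ℝ] X := e.trans B
  have hT : ∀ w, T w = Bc (M w) := fun w => rfl
  have hTle : ∀ w, ‖T w‖ ≤ ‖w‖ := fun w => hMS w
  have hlow : ∀ v, ‖v‖ ≤ √n * ‖T v‖ := by
    by_contra hcon
    push Not at hcon
    obtain ⟨D, hD1, hD2⟩ := hJOI n X T hn hTle hcon
    have hmem : M.comp (LinearMap.toContinuousLinearMap D) ∈ S := by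
      intro w
      exact hD1 w
    have h1 := hMmax hmem
    have h2 : ((M.comp (LinearMap.toContinuousLinearMap D) : Eu n →L[ℝ] Eu n) :
        Eu n →ₗ[ℝ] Eu n) = (M : Eu n →ₗ[ℝ] Eu n).comp D := by
      ext
      rfl
    have h3 : |LinearMap.det ((M.comp (LinearMap.toContinuousLinearMap D) : Eu n →L[ℝ] Eu n) :
        Eu n →ₗ[ℝ] Eu n)| ≤ |LinearMap.det (M : Eu n →ₗ[ℝ] Eu n)| := h1
    rw [h2, LinearMap.det_comp, abs_mul] at h3
    nlinarith
  have hn0 : (0 : ℝ) < √n := Real.sqrt_pos.mpr (by exact_mod_cast hn)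
  refine ⟨(LinearEquiv.smulOfNeZero ℝ (Eu n) (√n) hn0.ne').trans T, fun v => ?_⟩
  have hv : ((LinearEquiv.smulOfNeZero ℝ (Eu n) (√n) hn0.ne').trans T) v = √n • T v := by
    change T (√n • v) = _
    rw [map_smul]
  rw [hv, norm_smul, Real.norm_eq_abs, abs_of_pos hn0]
  exact ⟨hlow v, mul_le_mul_of_nonneg_left (hTle v) hn0.le⟩

end Pool.Agent.PJC.H80
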