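import Pool.Agent.PJC.Stmts
import Pool.Agent.Helper56_RHP.JOH

/-! PJC, row JOH: John's theorem, without hypotheses. -/

set_option autoImplicit false

namespace Pool.Agent.PJC.H80

open Pool.Agent.PJC

theorem joh2 : JohStmt := by
  intro n X _ _ _ _ hfin
  subst hfin
  obtain ⟨T, hT⟩ := Pool.Agent.RHP.H56.joh X
  refine ⟨T.symm, fun v => ?_⟩
  have h := hT (T.symm v)
  rw [LinearEquiv.apply_symm_apply] at h
  exact h

end Pool.Agent.PJC.H80
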